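import Mathlib
set_option autoImplicit false
open MeasureTheory ProbabilityTheory Filter Topology
open scoped ENNReal ComplexConjugate

namespace X206.WM

/-- Data of a Gaussian sequence on the unit interval. -/
structure GSys (𝕜 : Type) [RCLike 𝕜] (ν : Measure 𝕜) (g : ℕ → unitInterval → 𝕜) : Prop where
  prob : IsProbabilityMeasure ν
  mom : ∀ s : ℝ≥0∞, s ≠ ∞ → MemLp (fun z : 𝕜 => z) s ν
  meas : ∀ n, Measurable (g n)
  law : ∀ (t : Finset ℕ) (c : ℕ → 𝕜),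
    (volume : Measure unitInterval).map (fun u => ∑ n ∈ t, c n * g n u) =
      ν.map (fun z => ((Real.sqrt (∑ n ∈ t, ‖c n‖ ^ 2) : ℝ) : 𝕜) * z)
  add : (ν.prod ν).map (fun p => p.1 + p.2) = ν.map (fun z => ((Real.sqrt 2 : ℝ) : 𝕜) * z)
  big : ∀ m : ℝ, 0 < ν {z | m < ‖z‖}

lemma gauss_big (m : ℝ) : 0 < gaussianReal 0 1 {x : ℝ | m < ‖x‖} := by
  have h1 : (volume : Measure ℝ) ≪ gaussianReal 0 1 :=
    gaussianReal_absolutelyContinuous' 0 one_ne_zero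
  have hs : (0:ℝ≥0∞) < volume {x : ℝ | m < ‖x‖} := by
    have hopen : IsOpen {x : ℝ | m < ‖x‖} := isOpen_lt continuous_const continuous_norm
    refine hopen.measure_pos volume ⟨|m| + 1, ?_⟩
    simp only [Set.mem_ofPred_eq]
    rw [Real.norm_of_nonneg (by positivity)]
    have := le_abs_self m
    linarith
  rw [pos_iff_ne_zero] at hs ⊢
  exact fun h => hs (h1 h)

lemma cfmulR (ν : Measure ℝ) (c x : ℝ) :
    charFun (ν.map (fun z => c * z)) x = charFun ν (c * x) := by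
  rw [charFun_apply, charFun_apply, integral_map (by fun_prop) (by fun_prop)]
  refine integral_congr_ae (Eventually.of_forall fun z => ?_)
  simp only [RCLike.inner_apply, conj_trivial]
  congr 3
  ring

lemma cfmulC (ν : Measure ℂ) (c x : ℂ) :
    charFun (ν.map (fun z => c * z)) x = charFun ν (conj c * x) := by
  rw [charFun_apply, charFun_apply, integral_map (by fun_prop) (by fun_prop)]
  refine integral_congr_ae (Eventually.of_forall fun z => ?_)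
  simp only [Complex.inner, map_mul]
  congr 3
  ring_nf


lemma stdR_map_re : (stdGaussian ℝ) = gaussianReal 0 1 := by
  apply Measure.ext_of_charFun
  ext t
  rw [charFun_stdGaussian, charFun_gaussianReal]
  simp only [Complex.ofReal_zero, mul_zero, zero_mul, NNReal.coe_one, Complex.ofReal_one, one_mul,
    zero_sub]
  rw [← Complex.ofReal_pow, ← Complex.ofReal_pow, Real.norm_eq_abs, sq_abs, neg_div]

lemma stdC_map_re : (stdGaussian ℂ).map Complex.re = gaussianReal 0 1 := by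
  have h := IsGaussian.map_eq_gaussianReal (μ := stdGaussian ℂ) Complex.reCLM
  rw [variance_dual_stdGaussian, integral_strongDual_stdGaussian, Complex.reCLM_norm] at h
  have h2 : (stdGaussian ℂ).map Complex.reCLM = gaussianReal 0 1 := by simpa using h
  exact h2

lemma existsR : ∃ (ν : Measure ℝ) (g : ℕ → unitInterval → ℝ), GSys ℝ ν g := by
  obtain ⟨f, hf, hfm⟩ := Measure.exists_measurable_map_eq
    (Measure.infinitePi (fun _ : ℕ => stdGaussian ℝ))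
  have hgm : ∀ n, Measurable (fun u => f u n) := fun n => (measurable_pi_apply n).comp hf
  have hmap : ∀ n, (volume : Measure unitInterval).map (fun u => f u n) = stdGaussian ℝ := by
    intro n
    have h1 : (fun u => f u n) = (fun x : ℕ → ℝ => x n) ∘ f := rfl
    rw [h1, ← Measure.map_map (measurable_pi_apply n) hf, hfm]
    exact Measure.infinitePi_map_eval (fun _ : ℕ => stdGaussian ℝ) n
  have hind : iIndepFun (fun n u => f u n) (volume : Measure unitInterval) := by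
    rw [iIndepFun_iff_map_fun_eq_infinitePi_map hgm]
    simp only [hmap]
    exact hfm
  refine ⟨stdGaussian ℝ, fun n u => f u n, ⟨inferInstance, ?_, hgm, ?_, ?_, ?_⟩⟩
  · intro s hs
    exact IsGaussian.memLp_id _ s hs
  · intro t c
    apply Measure.ext_of_charFun
    have hc : iIndepFun (fun n u => c n * f u n) (volume : Measure unitInterval) :=
      hind.comp (fun n z => c n * z) (fun n => measurable_const_mul (c n))
    rw [(hc.restrict t).charFun_map_fun_finsetSum_eq_prod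
      (fun i _ => ((hgm i).const_mul (c i)).aemeasurable)]
    ext x
    rw [Finset.prod_apply, cfmulR, charFun_stdGaussian]
    have h2 : ∀ i ∈ t, charFun ((volume : Measure unitInterval).map (fun u => c i * f u i)) x =
        Complex.exp (-(‖c i‖ ^ 2 * ‖x‖ ^ 2 : ℝ) / 2) := by
      intro i _
      have h3 : (fun u => c i * f u i) = (fun z => c i * z) ∘ (fun u => f u i) := rfl
      rw [h3, ← Measure.map_map (measurable_const_mul (c i)) (hgm i), hmap, cfmulR,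
        charFun_stdGaussian, norm_mul]
      push_cast
      ring_nf
    rw [Finset.prod_congr rfl h2, ← Complex.exp_sum, norm_mul, mul_comm]
    congr 1
    have h4 : ((‖(RCLike.ofReal (Real.sqrt (∑ n ∈ t, ‖c n‖ ^ 2)) : ℝ)‖ ^ 2 : ℝ)) =
      ∑ n ∈ t, ‖c n‖ ^ 2 := by
      rw [RCLike.norm_ofReal, sq_abs, Real.sq_sqrt (Finset.sum_nonneg fun _ _ => sq_nonneg _)]
    have h5 : ((‖(RCLike.ofReal (Real.sqrt (∑ n ∈ t, ‖c n‖ ^ 2)) : ℝ)‖ : ℝ) : ℂ) ^ 2 =
      ((∑ n ∈ t, ‖c n‖ ^ 2 : ℝ) : ℂ) := by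
      rw [← Complex.ofReal_pow, h4]
    rw [Complex.ofReal_mul, mul_pow, h5, ← Finset.sum_div, Finset.sum_neg_distrib]
    push_cast
    rw [Finset.mul_sum]
    simp only [mul_comm]
  · apply Measure.ext_of_charFun
    ext x
    have h1 : ((stdGaussian ℝ).prod (stdGaussian ℝ)).map (fun p => p.1 + p.2) =
        (stdGaussian ℝ) ∗ (stdGaussian ℝ) := rfl
    rw [h1, charFun_conv, cfmulR, charFun_stdGaussian, charFun_stdGaussian, ← Complex.exp_add]
    congr 1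
    rw [norm_mul, Complex.ofReal_mul, mul_pow]
    have h5 : ((‖(RCLike.ofReal (Real.sqrt 2) : ℝ)‖ : ℝ) : ℂ) ^ 2 = 2 := by
      rw [RCLike.norm_ofReal, ← Complex.ofReal_pow, sq_abs, Real.sq_sqrt (by norm_num)]
      norm_num
    rw [h5]
    ring
  · intro m
    rw [stdR_map_re]
    exact gauss_big m

lemma existsC : ∃ (ν : Measure ℂ) (g : ℕ → unitInterval → ℂ), GSys ℂ ν g := by
  obtain ⟨f, hf, hfm⟩ := Measure.exists_measurable_map_eq
    (Measure.infinitePi (fun _ : ℕ => stdGaussian ℂ))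
  have hgm : ∀ n, Measurable (fun u => f u n) := fun n => (measurable_pi_apply n).comp hf
  have hmap : ∀ n, (volume : Measure unitInterval).map (fun u => f u n) = stdGaussian ℂ := by
    intro n
    have h1 : (fun u => f u n) = (fun x : ℕ → ℂ => x n) ∘ f := rfl
    rw [h1, ← Measure.map_map (measurable_pi_apply n) hf, hfm]
    exact Measure.infinitePi_map_eval (fun _ : ℕ => stdGaussian ℂ) n
  have hind : iIndepFun (fun n u => f u n) (volume : Measure unitInterval) := by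
    rw [iIndepFun_iff_map_fun_eq_infinitePi_map hgm]
    simp only [hmap]
    exact hfm
  refine ⟨stdGaussian ℂ, fun n u => f u n, ⟨inferInstance, ?_, hgm, ?_, ?_, ?_⟩⟩
  · intro s hs
    exact IsGaussian.memLp_id _ s hs
  · intro t c
    apply Measure.ext_of_charFun
    have hc : iIndepFun (fun n u => c n * f u n) (volume : Measure unitInterval) :=
      hind.comp (fun n z => c n * z) (fun n => measurable_const_mul (c n))
    rw [(hc.restrict t).charFun_map_fun_finsetSum_eq_prod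
      (fun i _ => ((hgm i).const_mul (c i)).aemeasurable)]
    ext x
    rw [Finset.prod_apply, cfmulC, charFun_stdGaussian]
    have h2 : ∀ i ∈ t, charFun ((volume : Measure unitInterval).map (fun u => c i * f u i)) x =
        Complex.exp (-(‖c i‖ ^ 2 * ‖x‖ ^ 2 : ℝ) / 2) := by
      intro i _
      have h3 : (fun u => c i * f u i) = (fun z => c i * z) ∘ (fun u => f u i) := rfl
      rw [h3, ← Measure.map_map (measurable_const_mul (c i)) (hgm i), hmap, cfmulC,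
        charFun_stdGaussian, norm_mul, RCLike.norm_conj]
      push_cast
      ring_nf
    rw [Finset.prod_congr rfl h2, ← Complex.exp_sum, norm_mul, RCLike.norm_conj, mul_comm]
    congr 1
    have h4 : ((‖(RCLike.ofReal (Real.sqrt (∑ n ∈ t, ‖c n‖ ^ 2)) : ℂ)‖ ^ 2 : ℝ)) =
      ∑ n ∈ t, ‖c n‖ ^ 2 := by
      rw [RCLike.norm_ofReal, sq_abs, Real.sq_sqrt (Finset.sum_nonneg fun _ _ => sq_nonneg _)]
    have h5 : ((‖(RCLike.ofReal (Real.sqrt (∑ n ∈ t, ‖c n‖ ^ 2)) : ℂ)‖ : ℝ) : ℂ) ^ 2 =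
      ((∑ n ∈ t, ‖c n‖ ^ 2 : ℝ) : ℂ) := by
      rw [← Complex.ofReal_pow, h4]
    rw [Complex.ofReal_mul, mul_pow, h5, ← Finset.sum_div, Finset.sum_neg_distrib]
    push_cast
    rw [Finset.mul_sum]
    simp only [mul_comm]
  · apply Measure.ext_of_charFun
    ext x
    have h1 : ((stdGaussian ℂ).prod (stdGaussian ℂ)).map (fun p => p.1 + p.2) =
        (stdGaussian ℂ) ∗ (stdGaussian ℂ) := rfl
    rw [h1, charFun_conv, cfmulC, charFun_stdGaussian, charFun_stdGaussian, ← Complex.exp_add]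
    congr 1
    rw [norm_mul, Complex.ofReal_mul, mul_pow, RCLike.norm_conj]
    have h5 : ((‖(RCLike.ofReal (Real.sqrt 2) : ℂ)‖ : ℝ) : ℂ) ^ 2 = 2 := by
      rw [RCLike.norm_ofReal, ← Complex.ofReal_pow, sq_abs, Real.sq_sqrt (by norm_num)]
      norm_num
    rw [h5]
    ring
  · intro m
    have h1 := gauss_big m
    rw [← stdC_map_re, Measure.map_apply (by fun_prop)
      (measurableSet_lt measurable_const measurable_norm)] at h1
    refine lt_of_lt_of_le h1 (measure_mono fun z hz => ?_)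
    simp only [Set.mem_preimage, Set.mem_ofPred_eq] at hz ⊢
    exact lt_of_lt_of_le hz (by rw [Real.norm_eq_abs]; exact Complex.abs_re_le_norm z)


section ops
variable {𝕜 : Type} [RCLike 𝕜] {ν : Measure 𝕜} {g : ℕ → unitInterval → 𝕜}

/-- The function equal to one, in `L_s`. -/
noncomputable def oneL {Ω : Type} [MeasurableSpace Ω] (μ : Measure Ω) [IsFiniteMeasure μ]
    (𝕜 : Type) [RCLike 𝕜] (s : ℝ≥0∞) : Lp 𝕜 s μ := (memLp_const (1 : 𝕜)).toLp (fun _ => (1:𝕜))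

lemma gsys_memLp (hG : GSys 𝕜 ν g) {s : ℝ≥0∞} (hs : s ≠ ∞) (n : ℕ) :
    MemLp (g n) s (volume : Measure unitInterval) := by
  have h1 := hG.law {n} (fun _ => 1)
  simp only [Finset.sum_singleton, one_mul, norm_one, one_pow, Real.sqrt_one,
    RCLike.ofReal_one] at h1
  have h2 : ν.map (fun z => z) = ν := Measure.map_id
  rw [h2] at h1
  have h3 := hG.mom s hs
  rw [← h1] at h3
  exact (memLp_map_measure_iff (by fun_prop) (hG.meas n).aemeasurable).1 h3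

/-- The norm of `α + r Z` in `L_s`. -/
noncomputable def Phi (hG : GSys 𝕜 ν g) (s : ℝ≥0∞) (hs : s ≠ ∞) (α : 𝕜) (r : ℝ) : ℝ :=
  haveI := hG.prob
  ‖α • oneL ν 𝕜 s + (r : 𝕜) • (hG.mom s hs).toLp (fun z => z)‖

lemma sum_toLp (hG : GSys 𝕜 ν g) {s : ℝ≥0∞} (hs : s ≠ ∞) (t : Finset ℕ) (c : ℕ → 𝕜) :
    ∃ h : MemLp (fun u => ∑ n ∈ t, c n * g n u) s (volume : Measure unitInterval),
      ∑ n ∈ t, c n • (gsys_memLp hG hs n).toLp (g n) = h.toLp _ := by
  classical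
  induction t using Finset.induction_on with
  | empty =>
    refine ⟨by simp, ?_⟩
    simp only [Finset.sum_empty]
    symm
    exact MemLp.toLp_zero _
  | insert a t ha ih =>
    obtain ⟨h, e⟩ := ih
    have h2 : MemLp (fun u => c a * g a u) s (volume : Measure unitInterval) :=
      (gsys_memLp hG hs a).const_mul (c a)
    have h3 : (fun u => ∑ n ∈ insert a t, c n * g n u) =
        (fun u => c a * g a u) + (fun u => ∑ n ∈ t, c n * g n u) := by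
      ext u
      rw [Finset.sum_insert ha]
      rfl
    refine ⟨by rw [h3]; exact h2.add h, ?_⟩
    rw [Finset.sum_insert ha, e]
    have h4 : c a • (gsys_memLp hG hs a).toLp (g a) = h2.toLp _ := by
      rw [← MemLp.toLp_const_smul]
      rfl
    rw [h4, ← MemLp.toLp_add]
    exact MemLp.toLp_congr _ _ (by rw [h3])

lemma norm_fin (hG : GSys 𝕜 ν g) {s : ℝ≥0∞} (hs : s ≠ ∞) (α : 𝕜) (t : Finset ℕ) (c : ℕ → 𝕜) :
    ‖α • oneL (volume : Measure unitInterval) 𝕜 s +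
      ∑ n ∈ t, c n • (gsys_memLp hG hs n).toLp (g n)‖ =
      Phi hG s hs α (Real.sqrt (∑ n ∈ t, ‖c n‖ ^ 2)) := by
  have := hG.prob
  obtain ⟨h, e⟩ := sum_toLp hG hs t c
  rw [e]
  unfold Phi oneL
  rw [← MemLp.toLp_const_smul, ← MemLp.toLp_add, Lp.norm_toLp,
    ← MemLp.toLp_const_smul, ← MemLp.toLp_const_smul, ← MemLp.toLp_add, Lp.norm_toLp]
  congr 1
  have h1 : (α • (fun _ => (1:𝕜)) + fun u => ∑ n ∈ t, c n * g n u) =
      (fun z : 𝕜 => α • (1:𝕜) + z) ∘ (fun u : unitInterval => ∑ n ∈ t, c n * g n u) := rfl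
  have h2 : (α • (fun _ => (1:𝕜)) +
      ((Real.sqrt (∑ n ∈ t, ‖c n‖ ^ 2) : ℝ) : 𝕜) • fun z : 𝕜 => z) =
      (fun z : 𝕜 => α • (1:𝕜) + z) ∘
        (fun z => ((Real.sqrt (∑ n ∈ t, ‖c n‖ ^ 2) : ℝ) : 𝕜) * z) := rfl
  have hm : Measurable (fun u : unitInterval => ∑ n ∈ t, c n * g n u) :=
    Finset.measurable_sum _ fun n _ => (hG.meas n).const_mul (c n)
  rw [h1, h2, ← eLpNorm_map_measure (by fun_prop) hm.aemeasurable, hG.law,
    eLpNorm_map_measure (by fun_prop) (by fun_prop)]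

lemma phi_continuous (hG : GSys 𝕜 ν g) (s : ℝ≥0∞) [Fact (1 ≤ s)] (hs : s ≠ ∞) (α : 𝕜) :
    Continuous (fun r : ℝ => Phi hG s hs α r) := by
  have := hG.prob
  unfold Phi
  have h1 : Continuous (fun r : ℝ => (r : 𝕜)) := RCLike.continuous_ofReal
  exact (continuous_const.add (h1.smul continuous_const)).norm

lemma phi_zero_left (hG : GSys 𝕜 ν g) (s : ℝ≥0∞) [Fact (1 ≤ s)] (hs : s ≠ ∞) (r : ℝ) :
    Phi hG s hs 0 r = |r| * Phi hG s hs 0 1 := by
  have := hG.prob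
  unfold Phi
  rw [zero_smul, zero_add, zero_add, RCLike.ofReal_one, one_smul, norm_smul, RCLike.norm_ofReal]

lemma phi_zero_right (hG : GSys 𝕜 ν g) (s : ℝ≥0∞) [Fact (1 ≤ s)] (hs : s ≠ ∞) (α : 𝕜) :
    Phi hG s hs α 0 = ‖α‖ := by
  have := hG.prob
  unfold Phi oneL
  rw [RCLike.ofReal_zero, zero_smul, add_zero, norm_smul, Lp.norm_toLp,
    eLpNorm_const _ (by have := Fact.out (p := (1 ≤ s)); positivity) (by
      have := hG.prob; exact IsProbabilityMeasure.ne_zero ν)]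
  simp

lemma phi_le (hG : GSys 𝕜 ν g) (s : ℝ≥0∞) [Fact (1 ≤ s)] (hs : s ≠ ∞) (α : 𝕜) (r : ℝ) :
    Phi hG s hs α r ≤ ‖α‖ + |r| * Phi hG s hs 0 1 := by
  rw [← phi_zero_left, ← phi_zero_right hG s hs α]
  have := hG.prob
  unfold Phi
  rw [RCLike.ofReal_zero, zero_smul, zero_smul, add_zero, zero_add]
  exact norm_add_le _ _

lemma phi_nonneg (hG : GSys 𝕜 ν g) (s : ℝ≥0∞) [Fact (1 ≤ s)] (hs : s ≠ ∞) (α : 𝕜) (r : ℝ) :
    0 ≤ Phi hG s hs α r := norm_nonneg _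

lemma norm_tsum_op (hG : GSys 𝕜 ν g) {s : ℝ≥0∞} [Fact (1 ≤ s)] (hs : s ≠ ∞) (α : 𝕜) (c : ℕ → 𝕜)
    (hc : Summable (fun n => ‖c n‖ ^ 2)) :
    Summable (fun n => c n • (gsys_memLp hG hs n).toLp (g n)) ∧
    ‖α • oneL (volume : Measure unitInterval) 𝕜 s +
      ∑' n, c n • (gsys_memLp hG hs n).toLp (g n)‖ =
      Phi hG s hs α (Real.sqrt (∑' n, ‖c n‖ ^ 2)) := by
  have hsum : Summable (fun n => c n • (gsys_memLp hG hs n).toLp (g n)) := by
    rw [summable_iff_vanishing_norm]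
    intro ε hε
    set m := Phi hG s hs 0 1 with hm
    have hm0 : 0 ≤ m := phi_nonneg hG s hs 0 1
    have hδ : 0 < (ε / (m + 1)) ^ 2 := by positivity
    obtain ⟨t0, ht0⟩ := (summable_iff_vanishing_norm.1 hc) _ hδ
    refine ⟨t0, fun t ht => ?_⟩
    have h1 := ht0 t ht
    rw [Real.norm_of_nonneg (Finset.sum_nonneg fun _ _ => sq_nonneg _)] at h1
    have h2 := norm_fin hG hs 0 t c
    rw [zero_smul, zero_add] at h2
    rw [h2, phi_zero_left, ← hm, abs_of_nonneg (Real.sqrt_nonneg _)]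
    have h3 : Real.sqrt (∑ n ∈ t, ‖c n‖ ^ 2) < ε / (m + 1) := by
      rw [Real.sqrt_lt' (by positivity)]
      exact h1
    calc Real.sqrt (∑ n ∈ t, ‖c n‖ ^ 2) * m ≤ ε / (m + 1) * m := by gcongr
      _ < ε := by
        rw [div_mul_eq_mul_div, div_lt_iff₀ (by positivity)]
        nlinarith
  refine ⟨hsum, ?_⟩
  have h1 : Tendsto (fun t : Finset ℕ => ‖α • oneL (volume : Measure unitInterval) 𝕜 s +
      ∑ n ∈ t, c n • (gsys_memLp hG hs n).toLp (g n)‖) atTop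
      (𝓝 ‖α • oneL (volume : Measure unitInterval) 𝕜 s +
        ∑' n, c n • (gsys_memLp hG hs n).toLp (g n)‖) :=
    (tendsto_const_nhds.add hsum.hasSum).norm
  have h2 : Tendsto (fun t : Finset ℕ => Phi hG s hs α (Real.sqrt (∑ n ∈ t, ‖c n‖ ^ 2))) atTop
      (𝓝 (Phi hG s hs α (Real.sqrt (∑' n, ‖c n‖ ^ 2)))) :=
    ((phi_continuous hG s hs α).tendsto _).comp
      ((Real.continuous_sqrt.tendsto _).comp hc.hasSum)
  have h1' := h1.congr (fun t => norm_fin hG hs α t c)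
  exact tendsto_nhds_unique h1' h2

lemma lp_summable (x : lp (fun _ : ℕ => 𝕜) 2) : Summable (fun n => ‖x n‖ ^ 2) := by
  have h := (lp.memℓp x).summable (by norm_num)
  simpa using h

lemma lp_norm_sq (x : lp (fun _ : ℕ => 𝕜) 2) : ‖x‖ ^ 2 = ∑' n, ‖x n‖ ^ 2 := by
  have h := lp.norm_rpow_eq_tsum (p := 2) (by norm_num) x
  simpa using h

lemma exists_op (hG : GSys 𝕜 ν g) (s : ℝ≥0∞) [Fact (1 ≤ s)] (hs : s ≠ ∞) (τ : 𝕜) (b : ℕ → ℝ)
    (hb : ∀ n, |b n| ≤ 1) :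
    ∃ S : lp (fun _ : ℕ => 𝕜) 2 →L[𝕜] Lp 𝕜 s (volume : Measure unitInterval),
      ∀ x : lp (fun _ : ℕ => 𝕜) 2, ‖S x‖ =
        Phi hG s hs (τ * x 0) (Real.sqrt (∑' n, ‖((b n : ℝ) : 𝕜) * x n‖ ^ 2)) := by
  have hbs : ∀ x : lp (fun _ : ℕ => 𝕜) 2, Summable (fun n => ‖((b n : ℝ) : 𝕜) * x n‖ ^ 2) := by
    intro x
    refine Summable.of_nonneg_of_le (fun n => sq_nonneg _) (fun n => ?_) (lp_summable x)
    rw [norm_mul, RCLike.norm_ofReal]
    gcongr
    calc |b n| * ‖x n‖ ≤ 1 * ‖x n‖ := by gcongr; exact hb n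
      _ = ‖x n‖ := one_mul _
  have hle : ∀ x : lp (fun _ : ℕ => 𝕜) 2, Real.sqrt (∑' n, ‖((b n : ℝ) : 𝕜) * x n‖ ^ 2) ≤ ‖x‖ := by
    intro x
    rw [← Real.sqrt_sq (norm_nonneg x), lp_norm_sq]
    apply Real.sqrt_le_sqrt
    refine (hbs x).tsum_le_tsum (fun n => ?_) (lp_summable x)
    rw [norm_mul, RCLike.norm_ofReal]
    gcongr
    calc |b n| * ‖x n‖ ≤ 1 * ‖x n‖ := by gcongr; exact hb n
      _ = ‖x n‖ := one_mul _
  let G : ℕ → Lp 𝕜 s (volume : Measure unitInterval) := fun n => (gsys_memLp hG hs n).toLp (g n)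
  have hS : ∀ x : lp (fun _ : ℕ => 𝕜) 2, Summable (fun n => (((b n : ℝ) : 𝕜) * x n) • G n) :=
    fun x => (norm_tsum_op hG hs 0 _ (hbs x)).1
  let L : lp (fun _ : ℕ => 𝕜) 2 →ₗ[𝕜] Lp 𝕜 s (volume : Measure unitInterval) :=
    { toFun := fun x => (τ * x 0) • oneL (volume : Measure unitInterval) 𝕜 s +
        ∑' n, (((b n : ℝ) : 𝕜) * x n) • G n
      map_add' := by
        intro x y
        have h1 : (fun n => (((b n : ℝ) : 𝕜) * (x + y) n) • G n) =
            fun n => (((b n : ℝ) : 𝕜) * x n) • G n + (((b n : ℝ) : 𝕜) * y n) • G n := by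
          ext1 n
          rw [← add_smul, ← mul_add]
          rfl
        rw [h1, (hS x).tsum_add (hS y)]
        have h2 : (x + y) 0 = x 0 + y 0 := rfl
        rw [h2, mul_add, add_smul]
        abel
      map_smul' := by
        intro a x
        have h1 : (fun n => (((b n : ℝ) : 𝕜) * (a • x) n) • G n) =
            fun n => a • ((((b n : ℝ) : 𝕜) * x n) • G n) := by
          ext1 n
          rw [smul_smul]
          congr 1
          have : (a • x) n = a * x n := rfl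
          rw [this]
          ring
        rw [h1, (hS x).tsum_const_smul a]
        have h2 : (a • x) 0 = a * x 0 := rfl
        rw [h2, RingHom.id_apply, smul_add, smul_smul]
        congr 2
        ring }
  have hLn : ∀ x, ‖L x‖ = Phi hG s hs (τ * x 0)
      (Real.sqrt (∑' n, ‖((b n : ℝ) : 𝕜) * x n‖ ^ 2)) :=
    fun x => (norm_tsum_op hG hs (τ * x 0) _ (hbs x)).2
  refine ⟨L.mkContinuous (‖τ‖ + Phi hG s hs 0 1) (fun x => ?_), fun x => hLn x⟩
  rw [hLn]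
  refine (phi_le hG s hs _ _).trans ?_
  rw [norm_mul, add_mul, abs_of_nonneg (Real.sqrt_nonneg _)]
  have h0 : ‖x 0‖ ≤ ‖x‖ := lp.norm_apply_le_norm (by norm_num) x 0
  have h1 := hle x
  have h2 := phi_nonneg hG s hs 0 1
  have h3 := norm_nonneg τ
  nlinarith [mul_le_mul_of_nonneg_left h0 h3, mul_le_mul_of_nonneg_right h1 h2]


lemma phi_pos (hG : GSys 𝕜 ν g) (s : ℝ≥0∞) [Fact (1 ≤ s)] (hs : s ≠ ∞) :
    0 < Phi hG s hs 0 1 := by
  have := hG.prob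
  have h1s : (1 : ℝ≥0∞) ≤ s := Fact.out
  rw [lt_iff_le_and_ne]
  refine ⟨phi_nonneg hG s hs 0 1, fun h => ?_⟩
  unfold Phi at h
  rw [zero_smul, zero_add, RCLike.ofReal_one, one_smul] at h
  rw [Lp.norm_toLp] at h
  have h2' : eLpNorm (fun z : 𝕜 => z) s ν = 0 := by
    rcases (ENNReal.toReal_eq_zero_iff _).1 h.symm with h' | h'
    · exact h'
    · exact absurd h' (hG.mom s hs).eLpNorm_ne_top
  have h2 := (eLpNorm_eq_zero_iff (by fun_prop) (by positivity)).1 h2'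
  have h3 := hG.big 0
  have h4 : ν {z : 𝕜 | 0 < ‖z‖} = 0 := by
    rw [Filter.EventuallyEq, ae_iff] at h2
    refine measure_mono_null (fun z hz => ?_) h2
    simp only [Set.mem_ofPred_eq, Pi.zero_apply] at hz ⊢
    exact norm_pos_iff.1 hz
  rw [h4] at h3
  exact lt_irrefl _ h3

lemma phi_rpow (hG : GSys 𝕜 ν g) (s : ℝ≥0∞) [Fact (1 ≤ s)] (hs : s ≠ ∞) (α : 𝕜) (r : ℝ) :
    Phi hG s hs α r ^ s.toReal = ∫ z, ‖α + (r : 𝕜) * z‖ ^ s.toReal ∂ν := by
  have := hG.prob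
  have h1s : (1 : ℝ≥0∞) ≤ s := Fact.out
  have hs0 : s ≠ 0 := by positivity
  have hpos : 0 < s.toReal := ENNReal.toReal_pos hs0 hs
  have hmem : MemLp (fun z : 𝕜 => α + (r : 𝕜) * z) s ν :=
    (memLp_const α).add ((hG.mom s hs).const_mul (r : 𝕜))
  unfold Phi oneL
  rw [← MemLp.toLp_const_smul, ← MemLp.toLp_const_smul, ← MemLp.toLp_add, Lp.norm_toLp]
  have h2 : (α • (fun _ => (1:𝕜)) + (r : 𝕜) • fun z : 𝕜 => z) =
      fun z : 𝕜 => α + (r : 𝕜) * z := by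
    ext z
    simp only [Pi.add_apply, Pi.smul_apply, smul_eq_mul, mul_one]
  rw [h2, hmem.eLpNorm_eq_integral_rpow_norm hs0 hs, ENNReal.toReal_ofReal (by positivity),
    ← Real.rpow_mul (by positivity), inv_mul_cancel₀ hpos.ne', Real.rpow_one]

lemma key_ineq (hG : GSys 𝕜 ν g) (s : ℝ≥0∞) [Fact (1 ≤ s)] (hs : s ≠ ∞) (hs2 : 2 < s) :
    ∃ x : 𝕜, Real.sqrt (‖x‖ ^ 2 + Phi hG s hs 0 1 ^ 2) < Phi hG s hs x 1 := by
  have := hG.prob
  by_contra hcon
  push Not at hcon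
  have h1s : (1 : ℝ≥0∞) ≤ s := Fact.out
  have hs0 : s ≠ 0 := by positivity
  set σ := s.toReal with hσ
  have hσ2 : 2 < σ := by
    rw [hσ]
    have := (ENNReal.toReal_lt_toReal (by norm_num) hs).2 hs2
    simpa using this
  have hσ0 : 0 < σ := by linarith
  have hσ00 : 0 ≤ σ := hσ0.le
  have hσ22 : 0 ≤ σ / 2 := by linarith
  set m := Phi hG s hs 0 1 with hm
  have hm0 : 0 < m := phi_pos hG s hs
  have hint : Integrable (fun z : 𝕜 => ‖z‖ ^ σ) ν := (hG.mom s hs).integrable_norm_rpow hs0 hs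
  have hmσ : m ^ σ = ∫ z, ‖z‖ ^ σ ∂ν := by
    rw [hm, phi_rpow]
    simp
    rfl
  -- the product side
  have hint2 : Integrable (fun w : 𝕜 => ‖w‖ ^ σ) (ν.map (fun z => ((Real.sqrt 2 : ℝ) : 𝕜) * z)) := by
    rw [integrable_map_measure (by fun_prop) (by fun_prop)]
    have h3 : ((fun w : 𝕜 => ‖w‖ ^ σ) ∘ fun z => ((Real.sqrt 2 : ℝ) : 𝕜) * z) =
        fun z => (Real.sqrt 2) ^ σ * ‖z‖ ^ σ := by
      ext z
      simp only [Function.comp]
      rw [norm_mul, RCLike.norm_ofReal, abs_of_nonneg (Real.sqrt_nonneg _),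
        Real.mul_rpow (Real.sqrt_nonneg _) (norm_nonneg _)]
    rw [h3]
    exact hint.const_mul _
  have hval : ∫ w, ‖w‖ ^ σ ∂(ν.map (fun z => ((Real.sqrt 2 : ℝ) : 𝕜) * z)) =
      (Real.sqrt 2) ^ σ * m ^ σ := by
    rw [integral_map (by fun_prop) (by fun_prop), hmσ, ← integral_const_mul]
    congr 1
    ext z
    rw [norm_mul, RCLike.norm_ofReal, abs_of_nonneg (Real.sqrt_nonneg _),
        Real.mul_rpow (Real.sqrt_nonneg _) (norm_nonneg _)]
  rw [← hG.add] at hint2 hval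
  rw [integrable_map_measure (by fun_prop) (by fun_prop)] at hint2
  rw [integral_map (by fun_prop) (by fun_prop)] at hval
  have hint3 : Integrable (fun p : 𝕜 × 𝕜 => ‖p.1 + p.2‖ ^ σ) (ν.prod ν) := hint2
  rw [integral_prod _ hint3] at hval
  have hintI : Integrable (fun x => ∫ z, ‖x + z‖ ^ σ ∂ν) ν := hint3.integral_prod_left
  have hcon2 : ∀ x : 𝕜, ∫ z, ‖x + z‖ ^ σ ∂ν ≤ (‖x‖ ^ 2 + m ^ 2) ^ (σ / 2) := by
    intro x
    have h4 := hcon x
    have h5 := phi_rpow hG s hs x 1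
    simp only [RCLike.ofReal_one, one_mul] at h5
    rw [← h5]
    calc Phi hG s hs x 1 ^ σ ≤ (Real.sqrt (‖x‖ ^ 2 + m ^ 2)) ^ σ := by
          apply Real.rpow_le_rpow (phi_nonneg hG s hs x 1) h4 hσ0.le
      _ = (‖x‖ ^ 2 + m ^ 2) ^ (σ / 2) := by
          rw [Real.sqrt_eq_rpow, ← Real.rpow_mul (by positivity)]
          congr 1
          ring
  -- strict convexity
  have hconv := strictConvexOn_rpow (p := σ / 2) (by linarith)
  have hpw : ∀ x : 𝕜, ((‖x‖ ^ 2 + m ^ 2) / 2) ^ (σ / 2) ≤ (‖x‖ ^ σ + m ^ σ) / 2 ∧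
      (m < ‖x‖ → ((‖x‖ ^ 2 + m ^ 2) / 2) ^ (σ / 2) < (‖x‖ ^ σ + m ^ σ) / 2) := by
    intro x
    have e1 : ∀ y : ℝ, 0 ≤ y → (y ^ 2) ^ (σ / 2) = y ^ σ := by
      intro y hy
      rw [← Real.rpow_natCast y 2, ← Real.rpow_mul hy]
      congr 1
      push_cast
      ring
    constructor
    · have h6 := hconv.convexOn.2 (Set.mem_Ici.2 (sq_nonneg ‖x‖))
        (Set.mem_Ici.2 (sq_nonneg m)) (show (0:ℝ) ≤ 1 / 2 by norm_num)
        (show (0:ℝ) ≤ 1 / 2 by norm_num) (by norm_num)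
      simp only [smul_eq_mul] at h6
      rw [e1 _ (norm_nonneg x), e1 _ hm0.le] at h6
      have h7 : (‖x‖ ^ 2 + m ^ 2) / 2 = 1 / 2 * ‖x‖ ^ 2 + 1 / 2 * m ^ 2 := by ring
      rw [h7]
      linarith
    · intro hx
      have hne : ‖x‖ ^ 2 ≠ m ^ 2 := by
        have : m ^ 2 < ‖x‖ ^ 2 := by gcongr
        exact this.ne'
      have h6 := hconv.2 (Set.mem_Ici.2 (sq_nonneg ‖x‖))
        (Set.mem_Ici.2 (sq_nonneg m)) hne (show (0:ℝ) < 1 / 2 by norm_num)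
        (show (0:ℝ) < 1 / 2 by norm_num) (by norm_num)
      simp only [smul_eq_mul] at h6
      rw [e1 _ (norm_nonneg x), e1 _ hm0.le] at h6
      have h7 : (‖x‖ ^ 2 + m ^ 2) / 2 = 1 / 2 * ‖x‖ ^ 2 + 1 / 2 * m ^ 2 := by ring
      rw [h7]
      linarith
  have hi1 : Integrable (fun x : 𝕜 => (‖x‖ ^ σ + m ^ σ) / 2) ν :=
    (hint.add (integrable_const _)).div_const 2
  have hi2 : Integrable (fun x : 𝕜 => ((‖x‖ ^ 2 + m ^ 2) / 2) ^ (σ / 2)) ν := by
    refine hi1.mono' (by fun_prop) (Eventually.of_forall fun x => ?_)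
    rw [Real.norm_of_nonneg (by positivity)]
    exact (hpw x).1
  have hlt : ∫ x, ((‖x‖ ^ 2 + m ^ 2) / 2) ^ (σ / 2) ∂ν < ∫ x, (‖x‖ ^ σ + m ^ σ) / 2 ∂ν := by
    rw [← sub_pos, ← integral_sub hi1 hi2,
      integral_pos_iff_support_of_nonneg (fun x => sub_nonneg.2 (hpw x).1) (hi1.sub hi2)]
    refine lt_of_lt_of_le (hG.big m) (measure_mono fun x hx => ?_)
    rw [Function.mem_support]
    exact (sub_pos.2 ((hpw x).2 hx)).ne'
  have hr : ∫ x, (‖x‖ ^ σ + m ^ σ) / 2 ∂ν = m ^ σ := by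
    rw [integral_div, integral_add hint (integrable_const _), ← hmσ, integral_const]
    simp
  rw [hr] at hlt
  have hfin : (Real.sqrt 2) ^ σ * m ^ σ ≤
      (Real.sqrt 2) ^ σ * ∫ x, ((‖x‖ ^ 2 + m ^ 2) / 2) ^ (σ / 2) ∂ν := by
    rw [← hval, ← integral_const_mul]
    refine integral_mono hintI (hi2.const_mul _) (fun x => ?_)
    refine (hcon2 x).trans (le_of_eq ?_)
    have h8 : (Real.sqrt 2) ^ σ = 2 ^ (σ / 2) := by
      rw [Real.sqrt_eq_rpow, ← Real.rpow_mul (by norm_num)]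
      congr 1
      ring
    change _ = Real.sqrt 2 ^ σ * ((‖x‖ ^ 2 + m ^ 2) / 2) ^ (σ / 2)
    rw [h8, ← Real.mul_rpow (by norm_num) (by positivity)]
    congr 1
    ring
  have hpos : 0 < (Real.sqrt 2) ^ σ := by positivity
  have := mul_lt_mul_of_pos_left hlt hpos
  linarith


lemma exists_S (hG : GSys 𝕜 ν g) (s : ℝ≥0∞) [Fact (1 ≤ s)] (hs : s ≠ ∞) (hs2 : 2 < s) :
    ∃ S : lp (fun _ : ℕ => 𝕜) 2 →L[𝕜] Lp 𝕜 s (volume : Measure unitInterval), ∃ m : ℝ,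
      0 < m ∧ m < ‖S‖ ∧ (∀ x, ‖x‖ = 1 → ‖S x‖ < ‖S‖) ∧
      (∀ x, ‖x‖ ≤ 1 → ‖S x‖ ≤ m + m * ‖x 0‖) := by
  classical
  set m := Phi hG s hs 0 1 with hm
  have hm0 : 0 < m := phi_pos hG s hs
  let b : ℕ → ℝ := fun n => (n : ℝ) / (n + 1)
  have hb0 : ∀ n, 0 ≤ b n := fun n => by positivity
  have hb1 : ∀ n, b n < 1 := fun n => by
    simp only [b]
    rw [div_lt_one (by positivity)]
    linarith
  have hbabs : ∀ n, |b n| ≤ 1 := fun n => by rw [abs_of_nonneg (hb0 n)]; exact (hb1 n).le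
  have hbpos : ∀ n, 1 ≤ n → 0 < b n := fun n hn => by
    have : (1:ℝ) ≤ n := by exact_mod_cast hn
    simp only [b]
    positivity
  obtain ⟨S, hS⟩ := exists_op hG s hs ((m : ℝ) : 𝕜) b hbabs
  have hnorm : ∀ (n : ℕ) (z : 𝕜), ‖((b n : ℝ) : 𝕜) * z‖ = b n * ‖z‖ := by
    intro n z
    rw [norm_mul, RCLike.norm_ofReal, abs_of_nonneg (hb0 n)]
  set M := ‖S‖ with hM
  -- test vectors
  have htest : ∀ (α : 𝕜) (r : ℝ), 0 ≤ r → Phi hG s hs ((m : 𝕜) * α) r ≤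
      M * Real.sqrt (‖α‖ ^ 2 + r ^ 2) := by
    intro α r hr
    have h1 : ∀ N : ℕ, Phi hG s hs ((m : 𝕜) * α) r ≤
        M * Real.sqrt (‖α‖ ^ 2 + (r / b (N + 1)) ^ 2) := by
      intro N
      let y : lp (fun _ : ℕ => 𝕜) 2 := lp.single 2 0 α + lp.single 2 (N + 1) ((r / b (N + 1) : ℝ) : 𝕜)
      have hy : ∀ n, y n = (if n = 0 then α else 0) +
          (if n = N + 1 then ((r / b (N + 1) : ℝ) : 𝕜) else 0) := by
        intro n
        change (lp.single 2 0 α : lp (fun _ : ℕ => 𝕜) 2) n +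
          (lp.single 2 (N + 1) ((r / b (N + 1) : ℝ) : 𝕜) : lp (fun _ : ℕ => 𝕜) 2) n = _
        simp only [lp.single_apply, Pi.single_apply]
      have hy0 : y 0 = α := by rw [hy]; simp
      have hyN : y (N + 1) = ((r / b (N + 1) : ℝ) : 𝕜) := by rw [hy]; simp
      have hyo : ∀ n, n ≠ 0 → n ≠ N + 1 → y n = 0 := by
        intro n h1 h2
        rw [hy]
        simp [h1, h2]
      have hbN := hbpos (N + 1) (by omega)
      have h2 : ‖y‖ ^ 2 = ‖α‖ ^ 2 + (r / b (N + 1)) ^ 2 := by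
        rw [lp_norm_sq, tsum_eq_sum (s := {0, N + 1}), Finset.sum_pair (by omega), hy0, hyN,
          RCLike.norm_ofReal, sq_abs]
        intro n hn
        simp only [Finset.mem_insert, Finset.mem_singleton, not_or] at hn
        rw [hyo n hn.1 hn.2]
        simp
      have h3 : ∑' n, ‖((b n : ℝ) : 𝕜) * y n‖ ^ 2 = r ^ 2 := by
        rw [tsum_eq_single (N + 1), hyN, hnorm, RCLike.norm_ofReal, abs_of_nonneg (by positivity)]
        · congr 1
          field_simp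
        · intro n hn
          rw [hnorm]
          by_cases h0 : n = 0
          · subst h0
            simp [b]
          · rw [hyo n h0 hn]
            simp
      have h4 := hS y
      rw [h3, hy0, Real.sqrt_sq hr] at h4
      rw [← h4, ← h2, Real.sqrt_sq (norm_nonneg _)]
      exact S.le_opNorm y
    have hlim : Tendsto (fun N : ℕ => b (N + 1)) atTop (𝓝 1) := by
      have := tendsto_natCast_div_add_atTop (1 : ℝ)
      exact this.comp (tendsto_add_atTop_nat 1)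
    have h5 : Tendsto (fun N : ℕ => M * Real.sqrt (‖α‖ ^ 2 + (r / b (N + 1)) ^ 2)) atTop
        (𝓝 (M * Real.sqrt (‖α‖ ^ 2 + (r / 1) ^ 2))) := by
      refine tendsto_const_nhds.mul ((Real.continuous_sqrt.tendsto _).comp ?_)
      exact tendsto_const_nhds.add ((tendsto_const_nhds.div hlim one_ne_zero).pow 2)
    rw [div_one] at h5
    exact ge_of_tendsto' h5 h1
  have hmM : m < M := by
    obtain ⟨x, hx⟩ := key_ineq hG s hs hs2
    rw [← hm] at hx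
    have h1 := htest (((m⁻¹ : ℝ) : 𝕜) * x) 1 zero_le_one
    have h2 : (m : 𝕜) * (((m⁻¹ : ℝ) : 𝕜) * x) = x := by
      rw [← mul_assoc, ← RCLike.ofReal_mul, mul_inv_cancel₀ hm0.ne', RCLike.ofReal_one, one_mul]
    rw [h2, norm_mul, RCLike.norm_ofReal, abs_of_pos (by positivity)] at h1
    have h3 : Real.sqrt ((m⁻¹ * ‖x‖) ^ 2 + 1 ^ 2) = m⁻¹ * Real.sqrt (‖x‖ ^ 2 + m ^ 2) := by
      rw [← Real.sqrt_sq (show 0 ≤ m⁻¹ by positivity), ← Real.sqrt_mul (by positivity),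
        Real.sqrt_sq (show 0 ≤ m⁻¹ by positivity)]
      congr 1
      field_simp
    rw [h3] at h1
    have h4 := lt_of_lt_of_le hx h1
    have hpos : 0 < Real.sqrt (‖x‖ ^ 2 + m ^ 2) := by positivity
    have h5 : 1 * Real.sqrt (‖x‖ ^ 2 + m ^ 2) < (M * m⁻¹) * Real.sqrt (‖x‖ ^ 2 + m ^ 2) := by
      rw [one_mul]; linarith [mul_assoc M m⁻¹ (Real.sqrt (‖x‖ ^ 2 + m ^ 2))]
    have h6 := lt_of_mul_lt_mul_right h5 hpos.le
    rw [← div_eq_mul_inv, one_lt_div hm0] at h6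
    exact h6
  have hbs : ∀ x : lp (fun _ : ℕ => 𝕜) 2, Summable (fun n => ‖((b n : ℝ) : 𝕜) * x n‖ ^ 2) := by
    intro x
    refine Summable.of_nonneg_of_le (fun n => sq_nonneg _) (fun n => ?_) (lp_summable x)
    rw [hnorm]
    have := hb1 n
    have := hb0 n
    gcongr
    calc b n * ‖x n‖ ≤ 1 * ‖x n‖ := by gcongr
      _ = ‖x n‖ := one_mul _
  have hrho : ∀ x : lp (fun _ : ℕ => 𝕜) 2,
      Real.sqrt (∑' n, ‖((b n : ℝ) : 𝕜) * x n‖ ^ 2) ≤ ‖x‖ := by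
    intro x
    rw [← Real.sqrt_sq (norm_nonneg x), lp_norm_sq]
    apply Real.sqrt_le_sqrt
    refine (hbs x).tsum_le_tsum (fun n => ?_) (lp_summable x)
    rw [hnorm]
    have := hb1 n
    have := hb0 n
    gcongr
    calc b n * ‖x n‖ ≤ 1 * ‖x n‖ := by gcongr
      _ = ‖x n‖ := one_mul _
  refine ⟨S, m, hm0, hmM, fun x hx => ?_, fun x hx => ?_⟩
  · by_cases hall : ∀ n, 1 ≤ n → x n = 0
    · have h1 : ∑' n, ‖((b n : ℝ) : 𝕜) * x n‖ ^ 2 = 0 := by
        rw [← tsum_zero (α := ℝ) (β := ℕ)]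
        congr 1
        ext n
        rw [hnorm]
        rcases Nat.eq_zero_or_pos n with h | h
        · subst h; simp [b]
        · rw [hall n h]; simp
      have h2 : ‖x 0‖ = 1 := by
        have h3 := lp_norm_sq x
        rw [tsum_eq_single 0 (fun n hn => by rw [hall n (by omega)]; simp), hx] at h3
        have := norm_nonneg (x 0)
        nlinarith
      rw [hS, h1, Real.sqrt_zero, phi_zero_right, norm_mul, RCLike.norm_ofReal, h2, mul_one,
        abs_of_pos hm0]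
      exact hmM
    · push Not at hall
      obtain ⟨k, hk1, hk⟩ := hall
      have h1 := htest (x 0) (Real.sqrt (∑' n, ‖((b n : ℝ) : 𝕜) * x n‖ ^ 2)) (Real.sqrt_nonneg _)
      rw [hS]
      refine lt_of_le_of_lt h1 ?_
      have hMpos : 0 < M := hm0.trans hmM
      have h2 : Real.sqrt (‖x 0‖ ^ 2 + Real.sqrt (∑' n, ‖((b n : ℝ) : 𝕜) * x n‖ ^ 2) ^ 2) < 1 := by
        rw [Real.sqrt_lt' one_pos, Real.sq_sqrt (tsum_nonneg fun n => sq_nonneg _)]
        have h3 := lp_norm_sq x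
        rw [hx] at h3
        rw [h3, (lp_summable x).tsum_eq_zero_add, (hbs x).tsum_eq_zero_add]
        have h4 : ‖((b 0 : ℝ) : 𝕜) * x 0‖ ^ 2 = 0 := by rw [hnorm]; simp [b]
        rw [h4, zero_add]
        have h5 : ∑' n, ‖((b (n + 1) : ℝ) : 𝕜) * x (n + 1)‖ ^ 2 < ∑' n, ‖x (n + 1)‖ ^ 2 := by
          refine Summable.tsum_lt_tsum (i := k - 1) (fun n => ?_) ?_
            ((summable_nat_add_iff 1).2 (hbs x)) ((summable_nat_add_iff 1).2 (lp_summable x))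
          · rw [hnorm]
            have := hb1 (n + 1)
            have := hb0 (n + 1)
            gcongr
            calc b (n + 1) * ‖x (n + 1)‖ ≤ 1 * ‖x (n + 1)‖ := by gcongr
              _ = ‖x (n + 1)‖ := one_mul _
          · have hk' : k - 1 + 1 = k := by omega
            rw [hk', hnorm]
            have h6 := hb1 k
            have h7 := hb0 k
            have h8 : 0 < ‖x k‖ := norm_pos_iff.2 hk
            have h9 : b k * ‖x k‖ < ‖x k‖ := by nlinarith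
            gcongr
        linarith
      calc M * _ < M * 1 := by gcongr
        _ = M := mul_one _
  · rw [hS]
    refine (phi_le hG s hs _ _).trans ?_
    rw [norm_mul, RCLike.norm_ofReal, abs_of_pos hm0, abs_of_nonneg (Real.sqrt_nonneg _), ← hm]
    have h1 := (hrho x).trans hx
    nlinarith

lemma exists_J (hG : GSys 𝕜 ν g) (s : ℝ≥0∞) [Fact (1 ≤ s)] (hs : s ≠ ∞) :
    ∃ J : lp (fun _ : ℕ => 𝕜) 2 →L[𝕜] Lp 𝕜 s (volume : Measure unitInterval), ∃ m : ℝ,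
      0 < m ∧ ∀ x, ‖J x‖ = m * ‖x‖ := by
  obtain ⟨J, hJ⟩ := exists_op hG s hs 0 (fun _ => 1) (fun _ => by simp)
  refine ⟨J, Phi hG s hs 0 1, phi_pos hG s hs, fun x => ?_⟩
  rw [hJ, zero_mul, phi_zero_left, abs_of_nonneg (Real.sqrt_nonneg _)]
  simp only [RCLike.ofReal_one, one_mul]
  rw [← lp_norm_sq, Real.sqrt_sq (norm_nonneg _), mul_comm]

end ops

section dual
variable {𝕜 : Type} [RCLike 𝕜] {Ω : Type} [MeasurableSpace Ω] {μ : Measure Ω}

lemma star_add' {p : ℝ≥0∞} (f h : Lp 𝕜 p μ) : star (f + h) = star f + star h := by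
  apply Lp.ext
  filter_upwards [Lp.coeFn_star (f + h), Lp.coeFn_add f h, Lp.coeFn_star f, Lp.coeFn_star h,
    Lp.coeFn_add (star f) (star h)] with u h1 h2 h3 h4 h5
  rw [h1, h5, Pi.add_apply, h3, h4, Pi.star_apply, Pi.star_apply, Pi.star_apply, h2, Pi.add_apply,
    star_add]

lemma star_smul' {p : ℝ≥0∞} (a : 𝕜) (f : Lp 𝕜 p μ) : star (a • f) = (conj a) • star f := by
  apply Lp.ext
  filter_upwards [Lp.coeFn_star (a • f), Lp.coeFn_smul a f, Lp.coeFn_star f,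
    Lp.coeFn_smul (conj a) (star f)] with u h1 h2 h3 h4
  rw [h1, h4, Pi.smul_apply, h3, Pi.star_apply, Pi.star_apply, h2, Pi.smul_apply, smul_eq_mul,
    smul_eq_mul, star_mul']
  rfl

lemma norm_star' {p : ℝ≥0∞} (f : Lp 𝕜 p μ) : ‖star f‖ = ‖f‖ := by
  rw [Lp.norm_def, Lp.norm_def]
  congr 1
  apply eLpNorm_congr_norm_ae
  filter_upwards [Lp.coeFn_star f] with u h1
  rw [h1, Pi.star_apply, norm_star]

/-- Norming function. -/
lemma exists_norming (p q : ℝ≥0∞) [Fact (1 ≤ p)] [Fact (1 ≤ q)] [p.HolderConjugate q]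
    (hp : p ≠ ∞) (hq : q ≠ ∞) (G : Lp 𝕜 p μ) (hG : G ≠ 0) :
    ∃ f : Lp 𝕜 q μ, ‖f‖ = 1 ∧ ∫ u, G u * conj (f u) ∂μ = ((‖G‖ : ℝ) : 𝕜) := by
  have hconj := ENNReal.HolderConjugate.toReal_of_ne_top (p := p) (q := q) hp hq
  set σ := p.toReal with hσ
  set τ := q.toReal with hτ
  have hσ1 : 1 < σ := hconj.lt
  have hτ1 : 1 < τ := hconj.symm.lt
  have hp0 : p ≠ 0 := by
    have : (1:ℝ≥0∞) ≤ p := Fact.out
    positivity
  have hq0 : q ≠ 0 := by
    have : (1:ℝ≥0∞) ≤ q := Fact.out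
    positivity
  have hrel : (σ - 1) * τ = σ := by
    have := hconj.sub_one_mul_conj
    linarith
  set N := ‖G‖ with hN
  have hN0 : 0 < N := norm_pos_iff.2 hG
  let φ : 𝕜 → 𝕜 := fun z => ((‖z‖ ^ (σ - 2) : ℝ) : 𝕜) * z
  have hφm : Measurable φ :=
    (RCLike.measurable_ofReal.comp (measurable_norm.pow_const (σ - 2))).mul measurable_id
  have hφn : ∀ z, ‖φ z‖ = ‖z‖ ^ (σ - 1) := by
    intro z
    simp only [φ]
    rw [norm_mul, RCLike.norm_ofReal, abs_of_nonneg (by positivity)]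
    rcases eq_or_ne z 0 with h | h
    · subst h
      rw [norm_zero, mul_zero, Real.zero_rpow (by linarith)]
    · have : 0 < ‖z‖ := norm_pos_iff.2 h
      rw [← Real.rpow_add_one this.ne']
      congr 1
      ring
  have hGm : AEStronglyMeasurable (G : Ω → 𝕜) μ := Lp.aestronglyMeasurable G
  have hGi : Integrable (fun u => ‖G u‖ ^ σ) μ := (Lp.memLp G).integrable_norm_rpow hp0 hp
  have hNσ : N ^ σ = ∫ u, ‖G u‖ ^ σ ∂μ := by
    rw [hN, Lp.norm_def, (Lp.memLp G).eLpNorm_eq_integral_rpow_norm hp0 hp,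
      ENNReal.toReal_ofReal (by positivity), ← Real.rpow_mul (by positivity), ← hσ,
      inv_mul_cancel₀ (by linarith), Real.rpow_one]
  have hfm : AEStronglyMeasurable (fun u => φ (G u)) μ :=
    (hφm.comp_aemeasurable hGm.aemeasurable).aestronglyMeasurable
  have hpow : (fun u => ‖φ (G u)‖ ^ q.toReal) = fun u => ‖G u‖ ^ σ := by
    ext u
    rw [hφn, ← Real.rpow_mul (norm_nonneg _), ← hτ, hrel]
  have hmem : MemLp (fun u => φ (G u)) q μ := by
    rw [← integrable_norm_rpow_iff hfm hq0 hq, hpow]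
    exact hGi
  have hnorm : ‖hmem.toLp _‖ = N ^ (σ - 1) := by
    rw [Lp.norm_toLp, hmem.eLpNorm_eq_integral_rpow_norm hq0 hq,
      ENNReal.toReal_ofReal (by positivity), hpow, ← hNσ, ← hτ, ← Real.rpow_mul hN0.le]
    congr 1
    rw [← div_eq_mul_inv, div_eq_iff (by linarith)]
    linarith
  refine ⟨((N ^ (1 - σ) : ℝ) : 𝕜) • hmem.toLp _, ?_, ?_⟩
  · rw [norm_smul, hnorm, RCLike.norm_ofReal, abs_of_pos (by positivity), ← Real.rpow_add hN0]
    simp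
  · have hae : ∀ᵐ u ∂μ, G u * conj ((((N ^ (1 - σ) : ℝ) : 𝕜) • hmem.toLp _ : Lp 𝕜 q μ) u) =
        ((N ^ (1 - σ) * ‖G u‖ ^ σ : ℝ) : 𝕜) := by
      filter_upwards [Lp.coeFn_smul ((N ^ (1 - σ) : ℝ) : 𝕜) (hmem.toLp _), hmem.coeFn_toLp]
        with u h1 h2
      rw [h1, Pi.smul_apply, h2, smul_eq_mul]
      simp only [φ, map_mul, RCLike.conj_ofReal]
      have h3 : G u * (((N ^ (1 - σ) : ℝ) : 𝕜) * (((‖G u‖ ^ (σ - 2) : ℝ) : 𝕜) * conj (G u))) =
          ((N ^ (1 - σ) : ℝ) : 𝕜) * (((‖G u‖ ^ (σ - 2) : ℝ) : 𝕜) * (G u * conj (G u))) := by ring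
      rw [h3, RCLike.mul_conj]
      have h4 : ‖G u‖ ^ (σ - 2) * ‖G u‖ ^ 2 = ‖G u‖ ^ σ := by
        rcases eq_or_ne (‖G u‖) 0 with h | h
        · rw [h, Real.zero_rpow (show σ ≠ 0 by linarith)]
          simp
        · rw [← Real.rpow_natCast, ← Real.rpow_add (lt_of_le_of_ne (norm_nonneg _) h.symm)]
          congr 1
          push_cast
          ring
      rw [← h4]
      push_cast
      ring
    rw [integral_congr_ae hae, integral_ofReal, integral_const_mul, ← hNσ, ← Real.rpow_add hN0]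
    simp

lemma exists_Q (p q : ℝ≥0∞) [Fact (1 ≤ p)] [Fact (1 ≤ q)] [p.HolderConjugate q]
    (hp : p ≠ ∞) (hq : q ≠ ∞) (J : lp (fun _ : ℕ => 𝕜) 2 →L[𝕜] Lp 𝕜 p μ) :
    ∃ Q : Lp 𝕜 q μ →L[𝕜] lp (fun _ : ℕ => 𝕜) 2,
      (∀ f c, ‖inner 𝕜 (Q f) c‖ ≤ ‖f‖ * ‖J c‖) ∧
      (∀ c, J c ≠ 0 → ∃ f, ‖f‖ = 1 ∧ inner 𝕜 (Q f) c = ((‖J c‖ : ℝ) : 𝕜)) := by
  let B : Lp 𝕜 p μ →L[𝕜] Lp 𝕜 q μ →L[𝕜] 𝕜 := (ContinuousLinearMap.mul 𝕜 𝕜).lpPairing μ p q
  have hB : ∀ G f, ‖B G f‖ ≤ ‖G‖ * ‖f‖ := by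
    intro G f
    have h1 : B G f = ∫ u, (ContinuousLinearMap.mul 𝕜 𝕜) (G u) (f u) ∂μ :=
      (ContinuousLinearMap.mul 𝕜 𝕜).lpPairing_eq_integral G f
    have h2 : ∫ u, (ContinuousLinearMap.mul 𝕜 𝕜) (G u) (f u) ∂μ =
        ∫ u, ((ContinuousLinearMap.mul 𝕜 𝕜).holder 1 G f : Lp 𝕜 1 μ) u ∂μ :=
      (integral_congr_ae ((ContinuousLinearMap.mul 𝕜 𝕜).coeFn_holder G f)).symm
    rw [h1, h2, ← L1.integral_eq_integral]
    refine (L1.norm_integral_le _).trans ?_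
    refine ((ContinuousLinearMap.mul 𝕜 𝕜).norm_holder_apply_apply_le G f).trans ?_
    have h3 : ‖ContinuousLinearMap.mul 𝕜 𝕜‖ ≤ 1 := ContinuousLinearMap.opNorm_mul_le 𝕜 𝕜
    have h4 := mul_nonneg (norm_nonneg G) (norm_nonneg f)
    nlinarith
  let ℓ : Lp 𝕜 q μ → StrongDual 𝕜 (lp (fun _ : ℕ => 𝕜) 2) := fun f => (B.flip (star f)).comp J
  have hℓ : ∀ f c, ℓ f c = B (J c) (star f) := fun f c => rfl
  let L : Lp 𝕜 q μ →ₗ[𝕜] lp (fun _ : ℕ => 𝕜) 2 :=
    { toFun := fun f => (InnerProductSpace.toDual 𝕜 (lp (fun _ : ℕ => 𝕜) 2)).symm (ℓ f)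
      map_add' := by
        intro f h
        rw [← map_add]
        congr 1
        ext1 c
        rw [add_apply, hℓ, hℓ, hℓ, star_add', map_add]
      map_smul' := by
        intro a f
        have : ℓ (a • f) = conj a • ℓ f := by
          ext1 c
          rw [smul_apply, hℓ, hℓ, star_smul', map_smul]
        rw [this, map_smulₛₗ]
        simp }
  have hL : ∀ f c, inner 𝕜 (L f) c = B (J c) (star f) := by
    intro f c
    change inner 𝕜 ((InnerProductSpace.toDual 𝕜 (lp (fun _ : ℕ => 𝕜) 2)).symm (ℓ f)) c = _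
    rw [InnerProductSpace.toDual_symm_apply]
    rfl
  have hb : ∀ f c, ‖inner 𝕜 (L f) c‖ ≤ ‖f‖ * ‖J c‖ := by
    intro f c
    rw [hL, mul_comm, ← norm_star' f]
    exact hB _ _
  refine ⟨L.mkContinuous ‖J‖ (fun f => ?_), fun f c => hb f c, fun c hc => ?_⟩
  · have h1 := hb f (L f)
    rw [inner_self_eq_norm_sq_to_K, norm_pow, RCLike.norm_ofReal, abs_of_nonneg (norm_nonneg _)] at h1
    have h2 := J.le_opNorm (L f)
    by_cases h0 : ‖L f‖ = 0
    · rw [h0]; positivity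
    · have h3 : 0 < ‖L f‖ := lt_of_le_of_ne (norm_nonneg _) (Ne.symm h0)
      have h4 : ‖L f‖ * ‖L f‖ ≤ (‖J‖ * ‖f‖) * ‖L f‖ := by
        nlinarith [norm_nonneg f, mul_le_mul_of_nonneg_left h2 (norm_nonneg f)]
      exact le_of_mul_le_mul_right h4 h3
  · obtain ⟨f, hf1, hf2⟩ := exists_norming p q hp hq (J c) hc
    refine ⟨f, hf1, ?_⟩
    change inner 𝕜 (L f) c = _
    rw [hL, ← hf2]
    have h1 : B (J c) (star f) = ∫ u, (ContinuousLinearMap.mul 𝕜 𝕜) (J c u) (star f u) ∂μ :=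
      (ContinuousLinearMap.mul 𝕜 𝕜).lpPairing_eq_integral (J c) (star f)
    rw [h1]
    apply integral_congr_ae
    filter_upwards [Lp.coeFn_star f] with u h2
    rw [h2]
    rfl

end dual

section final

/-- The weak maximizing property of a pair of normed spaces: every bounded operator which has a
maximizing sequence of unit vectors that is not weakly null attains its norm. -/
def WMP (𝕜 : Type) [RCLike 𝕜] (E F : Type) [NormedAddCommGroup E] [NormedSpace 𝕜 E]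
    [NormedAddCommGroup F] [NormedSpace 𝕜 F] : Prop :=
  ∀ T : E →L[𝕜] F,
    (∃ x : ℕ → E, (∀ n, ‖x n‖ = 1) ∧ Tendsto (fun n => ‖T (x n)‖) atTop (𝓝 ‖T‖) ∧
      ¬ (∀ φ : E →L[𝕜] 𝕜, Tendsto (fun n => φ (x n)) atTop (𝓝 0))) →
    ∃ x : E, ‖x‖ = 1 ∧ ‖T x‖ = ‖T‖

variable {𝕜 : Type} [RCLike 𝕜]

lemma not_wmp {E F : Type} [NormedAddCommGroup E] [NormedSpace 𝕜 E]
    [NormedAddCommGroup F] [NormedSpace 𝕜 F] (T : E →L[𝕜] F) (m K : ℝ) (φ : E →L[𝕜] 𝕜)
    (hm0 : 0 ≤ m) (hm : m < ‖T‖) (hb : ∀ x, ‖x‖ = 1 → ‖T x‖ ≤ m + K * ‖φ x‖)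
    (hna : ∀ x, ‖x‖ = 1 → ‖T x‖ < ‖T‖) : ¬ WMP 𝕜 E F := by
  intro h
  have hT : 0 < ‖T‖ := lt_of_le_of_lt hm0 hm
  have hex : ∀ n : ℕ, ∃ x : E, ‖x‖ = 1 ∧ ‖T‖ * ((n : ℝ) / (n + 1)) ≤ ‖T x‖ := by
    intro n
    have h1 : ‖T‖ * ((n : ℝ) / (n + 1)) < ‖T‖ := by
      have : (n : ℝ) / (n + 1) < 1 := by
        rw [div_lt_one (by positivity)]
        linarith
      nlinarith
    obtain ⟨y, hy1, hy2⟩ := T.exists_lt_apply_of_lt_opNorm h1
    have hnn : 0 ≤ ‖T‖ * ((n : ℝ) / (n + 1)) := by positivity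
    have hy0 : y ≠ 0 := by
      intro h0
      rw [h0, map_zero, norm_zero] at hy2
      linarith
    have hyp : 0 < ‖y‖ := norm_pos_iff.2 hy0
    refine ⟨((‖y‖⁻¹ : ℝ) : 𝕜) • y, ?_, ?_⟩
    · rw [norm_smul, RCLike.norm_ofReal, abs_of_pos (by positivity), inv_mul_cancel₀ hyp.ne']
    · rw [map_smul, norm_smul, RCLike.norm_ofReal, abs_of_pos (by positivity)]
      have h2 : 1 ≤ ‖y‖⁻¹ := (one_le_inv₀ hyp).2 hy1.le
      have h3 := norm_nonneg (T y)
      nlinarith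
  choose x hx1 hx2 using hex
  have hlim : Tendsto (fun n => ‖T (x n)‖) atTop (𝓝 ‖T‖) := by
    have h1 : Tendsto (fun n : ℕ => ‖T‖ * ((n : ℝ) / (n + 1))) atTop (𝓝 (‖T‖ * 1)) :=
      tendsto_const_nhds.mul (tendsto_natCast_div_add_atTop (1 : ℝ))
    rw [mul_one] at h1
    exact tendsto_of_tendsto_of_tendsto_of_le_of_le h1 tendsto_const_nhds hx2
      (fun n => (hna (x n) (hx1 n)).le)
  obtain ⟨y, hy1, hy2⟩ := h T ⟨x, hx1, hlim, fun hw => by
    have h2 : Tendsto (fun n => m + K * ‖φ (x n)‖) atTop (𝓝 (m + K * ‖(0 : 𝕜)‖)) :=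
      tendsto_const_nhds.add (tendsto_const_nhds.mul (hw φ).norm)
    rw [norm_zero, mul_zero, add_zero] at h2
    have h3 := le_of_tendsto_of_tendsto' hlim h2 (fun n => hb (x n) (hx1 n))
    linarith⟩
  exact absurd hy2 (hna y hy1).ne

/-- The first unit vector of `ℓ²`. -/
noncomputable def e0 (𝕜 : Type) [RCLike 𝕜] : lp (fun _ : ℕ => 𝕜) 2 := lp.single 2 0 (1 : 𝕜)

lemma e0_inner (c : lp (fun _ : ℕ => 𝕜) 2) : inner 𝕜 (e0 𝕜) c = c 0 := by
  unfold e0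
  rw [lp.inner_single_left]
  simp

lemma unit_decomp (c : lp (fun _ : ℕ => 𝕜) 2) (hc : c ≠ 0) :
    ‖((‖c‖⁻¹ : ℝ) : 𝕜) • c‖ = 1 ∧ ((‖c‖ : ℝ) : 𝕜) • (((‖c‖⁻¹ : ℝ) : 𝕜) • c) = c := by
  have h : 0 < ‖c‖ := norm_pos_iff.2 hc
  constructor
  · rw [norm_smul, RCLike.norm_ofReal, abs_of_pos (by positivity), inv_mul_cancel₀ h.ne']
  · rw [smul_smul, ← RCLike.ofReal_mul, mul_inv_cancel₀ h.ne', RCLike.ofReal_one, one_smul]

lemma caseA {ν : Measure 𝕜} {g : ℕ → unitInterval → 𝕜} (hG : GSys 𝕜 ν g)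
    (p p' q : ℝ≥0∞) [Fact (1 ≤ p)] [Fact (1 ≤ p')] [Fact (1 ≤ q)] [p'.HolderConjugate p]
    (hp : p ≠ ∞) (hp' : p' ≠ ∞) (hq : q ≠ ∞) (hq2 : 2 < q) :
    ¬ WMP 𝕜 (Lp 𝕜 p (volume : Measure unitInterval)) (Lp 𝕜 q (volume : Measure unitInterval)) := by
  obtain ⟨S, m, hm0, hmS, hna, hb⟩ := exists_S hG q hq hq2
  obtain ⟨J, κ, hκ, hJ⟩ := exists_J hG p' hp'
  obtain ⟨Q, hQ1, hQ2⟩ := exists_Q p' p hp' hp J
  have hQn : ∀ f, ‖Q f‖ ≤ κ * ‖f‖ := by
    intro f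
    have h1 := hQ1 f (Q f)
    rw [inner_self_eq_norm_sq_to_K, norm_pow, RCLike.norm_ofReal, abs_of_nonneg (norm_nonneg _),
      hJ] at h1
    by_cases h0 : ‖Q f‖ = 0
    · rw [h0]; positivity
    · have h3 : 0 < ‖Q f‖ := lt_of_le_of_ne (norm_nonneg _) (Ne.symm h0)
      have h4 : ‖Q f‖ * ‖Q f‖ ≤ (κ * ‖f‖) * ‖Q f‖ := by nlinarith
      exact le_of_mul_le_mul_right h4 h3
  have hQs : ∀ c, ‖c‖ = 1 → ∃ f, ‖f‖ = 1 ∧ Q f = (κ : 𝕜) • c := by
    intro c hc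
    have hJc : J c ≠ 0 := by
      rw [← norm_pos_iff, hJ, hc]
      linarith
    obtain ⟨f, hf1, hf2⟩ := hQ2 c hJc
    refine ⟨f, hf1, ?_⟩
    rw [hJ, hc, mul_one] at hf2
    have h1 : ‖Q f - (κ : 𝕜) • c‖ ^ 2 ≤ 0 := by
      rw [norm_sub_sq (𝕜 := 𝕜), inner_smul_right, hf2, norm_smul, RCLike.norm_ofReal, hc, mul_one,
        abs_of_pos hκ, ← RCLike.ofReal_mul, RCLike.ofReal_re]
      have h2 := hQn f
      rw [hf1, mul_one] at h2
      nlinarith [norm_nonneg (Q f)]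
    have h2 : ‖Q f - (κ : 𝕜) • c‖ = 0 := by
      have := sq_nonneg ‖Q f - (κ : 𝕜) • c‖
      have h3 : ‖Q f - (κ : 𝕜) • c‖ ^ 2 = 0 := le_antisymm h1 this
      exact pow_eq_zero_iff (two_ne_zero) |>.1 h3
    exact sub_eq_zero.1 (norm_eq_zero.1 h2)
  let T := S.comp Q
  have hTf : ∀ f, T f = S (Q f) := fun f => rfl
  have hST : κ * ‖S‖ ≤ ‖T‖ := by
    rw [← le_div_iff₀' hκ]
    refine S.opNorm_le_bound (by positivity) (fun c => ?_)
    by_cases hc : c = 0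
    · rw [hc]; simp
    · obtain ⟨h1, h2⟩ := unit_decomp c hc
      obtain ⟨f, hf1, hf2⟩ := hQs _ h1
      have h3 := T.le_opNorm f
      rw [hf1, mul_one, hTf, hf2, map_smul, norm_smul, RCLike.norm_ofReal, abs_of_pos hκ] at h3
      have h4 : ‖S c‖ = ‖c‖ * ‖S (((‖c‖⁻¹ : ℝ) : 𝕜) • c)‖ := by
        conv_lhs => rw [← h2]
        rw [map_smul, norm_smul, RCLike.norm_ofReal, abs_of_nonneg (norm_nonneg _)]
      rw [h4, mul_comm]
      have h5 : ‖S (((‖c‖⁻¹ : ℝ) : 𝕜) • c)‖ ≤ ‖T‖ / κ := by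
        rw [le_div_iff₀' hκ]
        exact h3
      exact mul_le_mul_of_nonneg_right h5 (norm_nonneg _)
  have hscale : ∀ f, ‖f‖ = 1 → Q f = (κ : 𝕜) • (((κ⁻¹ : ℝ) : 𝕜) • Q f) ∧
      ‖((κ⁻¹ : ℝ) : 𝕜) • Q f‖ ≤ 1 := by
    intro f hf
    constructor
    · rw [smul_smul, ← RCLike.ofReal_mul, mul_inv_cancel₀ hκ.ne', RCLike.ofReal_one, one_smul]
    · rw [norm_smul, RCLike.norm_ofReal, abs_of_pos (by positivity)]
      have h1 := hQn f
      rw [hf, mul_one] at h1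
      rw [← div_eq_inv_mul, div_le_one hκ]
      exact h1
  refine not_wmp T (κ * m) m ((innerSL 𝕜 (e0 𝕜)).comp Q) (by positivity)
    (lt_of_lt_of_le (by gcongr) hST) (fun f hf => ?_) (fun f hf => ?_)
  · obtain ⟨h1, h2⟩ := hscale f hf
    have h3 := hb _ h2
    rw [hTf, h1, map_smul, norm_smul, RCLike.norm_ofReal, abs_of_pos hκ]
    have h4 : ‖(((κ⁻¹ : ℝ) : 𝕜) • Q f) 0‖ = κ⁻¹ * ‖(Q f) 0‖ := by
      have : (((κ⁻¹ : ℝ) : 𝕜) • Q f) 0 = ((κ⁻¹ : ℝ) : 𝕜) * (Q f) 0 := rfl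
      rw [this, norm_mul, RCLike.norm_ofReal, abs_of_pos (by positivity)]
    rw [h4] at h3
    have h5 : ((innerSL 𝕜 (e0 𝕜)).comp Q) f = (Q f) 0 := by
      rw [ContinuousLinearMap.comp_apply, innerSL_apply_apply, e0_inner]
    rw [h5]
    calc κ * ‖S (((κ⁻¹ : ℝ) : 𝕜) • Q f)‖ ≤ κ * (m + m * (κ⁻¹ * ‖(Q f) 0‖)) := by gcongr
      _ = κ * m + m * ‖(Q f) 0‖ := by field_simp
  · obtain ⟨h1, h2⟩ := hscale f hf
    rw [hTf, h1, map_smul, norm_smul, RCLike.norm_ofReal, abs_of_pos hκ]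
    refine lt_of_lt_of_le ?_ hST
    have hSpos : 0 < ‖S‖ := hm0.trans hmS
    gcongr
    set c := ((κ⁻¹ : ℝ) : 𝕜) • Q f with hc
    by_cases hc0 : c = 0
    · rw [hc0, map_zero, norm_zero]; exact hSpos
    · obtain ⟨h3, h4⟩ := unit_decomp c hc0
      have h5 := hna _ h3
      have h6 : ‖S c‖ = ‖c‖ * ‖S (((‖c‖⁻¹ : ℝ) : 𝕜) • c)‖ := by
        conv_lhs => rw [← h4]
        rw [map_smul, norm_smul, RCLike.norm_ofReal, abs_of_nonneg (norm_nonneg _)]
      rw [h6]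
      have h7 := norm_nonneg (S (((‖c‖⁻¹ : ℝ) : 𝕜) • c))
      have h8 := norm_nonneg c
      nlinarith

lemma caseB {ν : Measure 𝕜} {g : ℕ → unitInterval → 𝕜} (hG : GSys 𝕜 ν g)
    (p p' q : ℝ≥0∞) [Fact (1 ≤ p)] [Fact (1 ≤ p')] [Fact (1 ≤ q)] [p'.HolderConjugate p]
    (hp : p ≠ ∞) (hp' : p' ≠ ∞) (hq : q ≠ ∞) (hp2 : 2 < p') :
    ¬ WMP 𝕜 (Lp 𝕜 p (volume : Measure unitInterval)) (Lp 𝕜 q (volume : Measure unitInterval)) := by
  obtain ⟨S, m, hm0, hmS, hna, hb⟩ := exists_S hG p' hp' hp2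
  obtain ⟨V, κ, hκ, hV⟩ := exists_J hG q hq
  obtain ⟨Q, hQ1, hQ2⟩ := exists_Q p' p hp' hp S
  let T := V.comp Q
  have hTf : ∀ f, ‖T f‖ = κ * ‖Q f‖ := fun f => hV (Q f)
  have hSpos : 0 < ‖S‖ := hm0.trans hmS
  have hST : κ * ‖S‖ ≤ ‖T‖ := by
    rw [← le_div_iff₀' hκ]
    refine S.opNorm_le_bound (by positivity) (fun c => ?_)
    by_cases hc : S c = 0
    · rw [hc, norm_zero]; positivity
    · obtain ⟨f, hf1, hf2⟩ := hQ2 c hc
      have h1 : ‖S c‖ = ‖inner 𝕜 (Q f) c‖ := by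
        rw [hf2, RCLike.norm_ofReal, abs_of_nonneg (norm_nonneg _)]
      have h2 : ‖inner 𝕜 (Q f) c‖ ≤ ‖Q f‖ * ‖c‖ := norm_inner_le_norm _ _
      have h3 := T.le_opNorm f
      rw [hf1, mul_one, hTf] at h3
      have h4 : ‖Q f‖ ≤ ‖T‖ / κ := by
        rw [le_div_iff₀' hκ]
        exact h3
      rw [h1]
      exact h2.trans (mul_le_mul_of_nonneg_right h4 (norm_nonneg _))
  -- for a unit vector f the norm of Q f is at most the norm of S at the direction of Q f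
  have hdir : ∀ f, ‖f‖ = 1 → Q f ≠ 0 → ‖Q f‖ ≤ ‖S (((‖Q f‖⁻¹ : ℝ) : 𝕜) • Q f)‖ := by
    intro f hf h0
    have hpos : 0 < ‖Q f‖ := norm_pos_iff.2 h0
    have h1 := hQ1 f (((‖Q f‖⁻¹ : ℝ) : 𝕜) • Q f)
    rw [hf, one_mul, inner_smul_right, inner_self_eq_norm_sq_to_K, norm_mul, norm_pow,
      RCLike.norm_ofReal, RCLike.norm_ofReal, abs_of_nonneg (norm_nonneg _),
      abs_of_pos (by positivity)] at h1
    have h2 : ‖Q f‖⁻¹ * ‖Q f‖ ^ 2 = ‖Q f‖ := by field_simp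
    rw [h2] at h1
    exact h1
  refine not_wmp T (κ * m) κ ((innerSL 𝕜 (e0 𝕜)).comp Q) (by positivity)
    (lt_of_lt_of_le (by gcongr) hST) (fun f hf => ?_) (fun f hf => ?_)
  · have h5 : ((innerSL 𝕜 (e0 𝕜)).comp Q) f = (Q f) 0 := by
      rw [ContinuousLinearMap.comp_apply, innerSL_apply_apply, e0_inner]
    rw [h5, hTf]
    by_cases hle : ‖Q f‖ ≤ m
    · have : 0 ≤ κ * ‖(Q f) 0‖ := by positivity
      have : κ * ‖Q f‖ ≤ κ * m := by gcongr
      linarith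
    · push Not at hle
      have h0 : Q f ≠ 0 := by
        rw [← norm_pos_iff]
        linarith
      have hpos : 0 < ‖Q f‖ := norm_pos_iff.2 h0
      have h1 := hdir f hf h0
      have h2 := hb _ (unit_decomp (Q f) h0).1.le
      have h4 : ‖(((‖Q f‖⁻¹ : ℝ) : 𝕜) • Q f) 0‖ = ‖Q f‖⁻¹ * ‖(Q f) 0‖ := by
        have : (((‖Q f‖⁻¹ : ℝ) : 𝕜) • Q f) 0 = ((‖Q f‖⁻¹ : ℝ) : 𝕜) * (Q f) 0 := rfl
        rw [this, norm_mul, RCLike.norm_ofReal, abs_of_pos (by positivity)]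
      rw [h4] at h2
      have h6 : m * (‖Q f‖⁻¹ * ‖(Q f) 0‖) ≤ ‖(Q f) 0‖ := by
        rw [← mul_assoc]
        have h7 : m * ‖Q f‖⁻¹ ≤ 1 := by
          rw [← div_eq_mul_inv, div_le_one hpos]
          exact hle.le
        exact mul_le_of_le_one_left (norm_nonneg _) h7
      have h8 : ‖Q f‖ ≤ m + ‖(Q f) 0‖ := by linarith
      calc κ * ‖Q f‖ ≤ κ * (m + ‖(Q f) 0‖) := by gcongr
        _ = κ * m + κ * ‖(Q f) 0‖ := by ring
  · rw [hTf]
    refine lt_of_lt_of_le ?_ hST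
    gcongr
    by_cases h0 : Q f = 0
    · rw [h0, norm_zero]; exact hSpos
    · exact lt_of_le_of_lt (hdir f hf h0) (hna _ (unit_decomp (Q f) h0).1)

lemma main {ν : Measure 𝕜} {g : ℕ → unitInterval → 𝕜} (hG : GSys 𝕜 ν g)
    (p q : ℝ≥0∞) [Fact (1 ≤ p)] [Fact (1 ≤ q)] (hp1 : 1 < p) (hp2 : p ≤ 2) (hq2 : 2 ≤ q)
    (hq : q < ∞) (hne : ¬ (p = 2 ∧ q = 2)) :
    ¬ WMP 𝕜 (Lp 𝕜 p (volume : Measure unitInterval)) (Lp 𝕜 q (volume : Measure unitInterval)) := by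
  have hp : p ≠ ∞ := ne_top_of_le_ne_top (by norm_num) hp2
  have hc : p.HolderConjugate p.conjExponent := ENNReal.HolderConjugate.conjExponent hp1.le
  have hc' : p.conjExponent.HolderConjugate p := hc.symm
  have h11 : (1 : ℝ≥0∞) ≤ p.conjExponent := by
    rw [ENNReal.conjExponent]
    exact le_self_add
  have : Fact (1 ≤ p.conjExponent) := ⟨h11⟩
  have hsub : 0 < p - 1 := tsub_pos_of_lt hp1
  have hp' : p.conjExponent ≠ ∞ := by
    rw [ENNReal.conjExponent]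
    exact ENNReal.add_ne_top.2 ⟨by norm_num, ENNReal.inv_ne_top.2 hsub.ne'⟩
  rcases eq_or_lt_of_le hq2 with h | h
  · have hpne : p ≠ 2 := fun h2 => hne ⟨h2, h.symm⟩
    have hp2' : p < 2 := lt_of_le_of_ne hp2 hpne
    have hgt : 2 < p.conjExponent := by
      rw [ENNReal.conjExponent]
      have h3 : p - 1 < 1 := by
        have h21 : (2 : ℝ≥0∞) = 1 + 1 := by norm_num
        rw [h21] at hp2'
        exact ENNReal.sub_lt_of_lt_add hp1.le hp2'
      have h4 : 1 < (p - 1)⁻¹ := ENNReal.one_lt_inv.2 h3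
      calc (2 : ℝ≥0∞) = 1 + 1 := by norm_num
        _ < 1 + (p - 1)⁻¹ := ENNReal.add_lt_add_left (by norm_num) h4
    exact caseB hG p p.conjExponent q hp hp' hq.ne hgt
  · exact caseA hG p p.conjExponent q hp hp' hq.ne h

end final
end X206.WM

namespace Pool.Agent.Results.MP_30e1ee_an.WeakMaximizing

open X206.WM in
theorem result (p q : ℝ≥0∞) [Fact (1 ≤ p)] [Fact (1 ≤ q)]
    (hp1 : 1 < p) (hp2 : p ≤ 2) (hq2 : 2 ≤ q) (hq : q < ∞) (hne : ¬ (p = 2 ∧ q = 2)) :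
    ¬ WMP ℝ (Lp ℝ p (volume : Measure unitInterval)) (Lp ℝ q (volume : Measure unitInterval)) ∧
    ¬ WMP ℂ (Lp ℂ p (volume : Measure unitInterval)) (Lp ℂ q (volume : Measure unitInterval)) := by
  obtain ⟨ν, g, hG⟩ := existsR
  obtain ⟨ν', g', hG'⟩ := existsC
  exact ⟨main hG p q hp1 hp2 hq2 hq hne, main hG' p q hp1 hp2 hq2 hq hne⟩

end Pool.Agent.Results.MP_30e1ee_an.WeakMaximizing
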